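import Mathlib

namespace Pool.Agent.Results.MP_8be476_pr.NegCov
open MeasureTheory ProbabilityTheory Finset
open scoped ENNReal NNReal

/-- effective conductance from `v` to its descendants `n` levels below; `ω v` is the index of `v`,
its children are `i :: v` (`i < ω v`), an edge between indices `k, m` has conductance `g k m` -/
noncomputable def Cn (g : ℕ → ℕ → ℝ≥0) (ω : List ℕ → ℕ) : ℕ → List ℕ → ℝ≥0∞
  | 0, _ => ∞
  | n + 1, v => ∑ i ∈ range (ω v), ((g (ω v) (ω (i :: v)) : ℝ≥0∞)⁻¹ + (Cn g ω n (i :: v))⁻¹)⁻¹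

/-- `𝒞(T_i^*)`: the edge from the root to its neighbour `[i]` in series with the subtree `T_i` -/
noncomputable def Cs (g : ℕ → ℕ → ℝ≥0) (ω : List ℕ → ℕ) (i : ℕ) : ℝ≥0∞ :=
  ((g (ω []) (ω [i]) : ℝ≥0∞)⁻¹ + (⨅ n, Cn g ω n [i])⁻¹)⁻¹

/-- `𝒞(T_0^*) / 𝒞(T)`; the root has `ω [] + 1` children -/
noncomputable def R (g : ℕ → ℕ → ℝ≥0) (ω : List ℕ → ℕ) : ℝ :=
  (Cs g ω 0 / ∑ i ∈ range (ω [] + 1), Cs g ω i).toReal

noncomputable def p : Measure ℕ := (1 / 2 : ℝ≥0∞) • .dirac 2 + (1 / 2 : ℝ≥0∞) • .dirac 49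
instance : IsProbabilityMeasure p := ⟨by simp [p, ENNReal.inv_two_add_inv_two]⟩
def g (k m : ℕ) : ℝ≥0 := if k = 49 ∧ m = 49 then 2 else 1

lemma msum {f : ℕ → (List ℕ → ℕ) → ℝ≥0∞} (hf : ∀ i, Measurable (f i)) {k : (List ℕ → ℕ) → ℕ}
    (hk : Measurable k) : Measurable fun ω => ∑ i ∈ range (k ω), f i ω :=
  (measurable_from_prod_countable_left (f := fun q : (List ℕ → ℕ) × ℕ => ∑ i ∈ range q.2, f i q.1)
    fun k => Finset.measurable_sum (range k) fun i _ => hf i).comp (measurable_id.prodMk hk)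

lemma mg (v w : List ℕ) : Measurable fun ω : List ℕ → ℕ => g (ω v) (ω w) :=
  (measurable_of_countable fun q : ℕ × ℕ => g q.1 q.2).comp
    (f := fun ω : List ℕ → ℕ => (ω v, ω w)) (by fun_prop)

lemma mCn (n : ℕ) (v : List ℕ) : Measurable fun ω => Cn g ω n v := by
  induction n generalizing v with
  | zero => exact measurable_const
  | succ n ih =>
    exact msum (fun i => ((mg _ _).coe_nnreal_ennreal.inv.add (ih _).inv).inv) (measurable_pi_apply v)

lemma mR : Measurable (R g) := by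
  have : ∀ i, Measurable fun ω => Cs g ω i := fun i =>
    ((mg _ _).coe_nnreal_ennreal.inv.add (Measurable.iInf fun n => mCn n _).inv).inv
  exact ((this 0).div (msum this (by fun_prop))).ennreal_toReal

lemma half (k m : ℕ) {x : ℝ≥0∞} (hx : 1 ≤ x) : 2⁻¹ ≤ ((g k m : ℝ≥0∞)⁻¹ + x⁻¹)⁻¹ := by
  rw [ENNReal.inv_le_inv, ← one_add_one_eq_two]
  refine add_le_add (ENNReal.inv_le_one.2 ?_) (ENNReal.inv_le_one.2 hx)
  unfold g; split_ifs <;> simp

variable {ω : List ℕ → ℕ} (h : ∀ v, ω v = 2 ∨ ω v = 49)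
include h

lemma Cs_bd (i : ℕ) : 2⁻¹ ≤ Cs g ω i ∧ Cs g ω i ≤ g (ω []) (ω [i]) := by
  refine ⟨half _ _ (le_iInf fun n => ?_), ENNReal.inv_le_iff_inv_le.2 le_self_add⟩
  generalize [i] = v
  induction n generalizing v with
  | zero => exact le_top
  | succ n ih =>
    refine le_trans ?_ (card_nsmul_le_sum _ _ _ fun i _ => half _ _ (ih _))
    rw [card_range, nsmul_eq_mul, ← ENNReal.mul_inv_cancel two_ne_zero ENNReal.ofNat_ne_top]
    gcongr
    rcases h v with h | h <;> norm_num [h]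

lemma R_big (h0 : ω [] = 49) : R g ω ≤ 2 / 25 := by
  refine (ENNReal.toReal_mono (b := 2 / 25) (by finiteness) (ENNReal.div_le_div
    ((Cs_bd h 0).2.trans (by unfold g; split_ifs <;> simp)) (le_trans ?_
      (card_nsmul_le_sum _ _ _ fun i _ => (Cs_bd h i).1)))).trans_eq (by simp)
  rw [card_range, h0, nsmul_eq_mul, ← div_eq_mul_inv, ENNReal.le_div_iff_mul_le (by simp) (by simp)]
  norm_num

lemma R_small (h0 : ω [] = 2) : 1 / 6 ≤ R g ω := by
  have a : ∑ i ∈ range (ω [] + 1), Cs g ω i ≤ 3 :=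
    (sum_le_card_nsmul _ _ 1 fun i _ => (Cs_bd h i).2.trans (by simp [g, h0])).trans (by simp [h0])
  refine le_trans (by simp; norm_num) (ENNReal.toReal_mono (a := 2⁻¹ / 3)
    (ne_top_of_le_ne_top ENNReal.one_ne_top (ENNReal.div_le_of_le_mul ?_))
    (ENNReal.div_le_div (Cs_bd h 0).1 a))
  rw [one_mul]
  exact single_le_sum (fun _ _ => zero_le) (by simp)

omit h in
theorem result : ∃ (p : Measure ℕ) (_ : IsProbabilityMeasure p) (g : ℕ → ℕ → ℝ≥0),
    p {0} = 0 ∧ p {1} < 1 ∧ (∀ k m, g k m = g m k ∧ 0 < g k m ∧ g k m ≤ 2) ∧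
    (∃ k m, p {k} ≠ 0 ∧ p {m} ≠ 0 ∧ g k k ≠ g m m) ∧
    cov[fun ω => (g (ω []) (ω [0]) : ℝ), R g; Measure.infinitePi fun _ : List ℕ => p] < 0 := by
  refine ⟨p, inferInstance, g, by simp [p], by simp [p], fun k m => by
    unfold g; split_ifs <;> simp_all [and_comm], ⟨2, 49, by simp [p], by simp [p], by simp [g]⟩, ?_⟩
  set P := Measure.infinitePi fun _ : List ℕ => p
  have mp := fun v : List ℕ => measurePreserving_eval_infinitePi (fun _ : List ℕ => p) v
  have ae : ∀ᵐ ω ∂P, ∀ v, ω v = 2 ∨ ω v = 49 := ae_all_iff.2 fun v =>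
    (mp v).quasiMeasurePreserving.ae (p := fun k => k = 2 ∨ k = 49) (by simp [p, ae_iff])
  set A : Set (List ℕ → ℕ) := Set.pi ({[], [0]} : Finset (List ℕ)) fun _ => {49}
  have hA : MeasurableSet A := .pi (Finset.countable_toSet _) fun _ _ => .singleton _
  have pA : P.real A = 1 / 4 := by
    rw [measureReal_def, Measure.infinitePi_pi _ fun _ _ => .singleton _]; simp [p]; norm_num
  have e : (fun ω : List ℕ → ℕ => (g (ω []) (ω [0]) : ℝ)) = fun ω => A.indicator 1 ω + 1 := by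
    ext ω; simp only [g, A, Set.indicator]; split_ifs <;> simp_all <;> norm_num
  have lR : MemLp (R g) 2 P := memLp_of_bounded (a := 0) (b := 1) (.of_forall fun ω =>
    ⟨ENNReal.toReal_nonneg, ENNReal.toReal_le_of_le_ofReal zero_le_one (by
      rw [ENNReal.ofReal_one]
      exact ENNReal.div_le_of_le_mul ((single_le_sum (f := Cs g ω) (fun _ _ => zero_le)
        (by simp)).trans_eq (one_mul _).symm))⟩)
    mR.aestronglyMeasurable 2
  have lA : MemLp (fun ω => A.indicator 1 ω : _ → ℝ) 2 P := (memLp_const (1 : ℝ)).indicator hA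
  rw [e, covariance_add_const_left (lA.integrable one_le_two), covariance_eq_sub lA lR,
    integral_indicator_one hA, pA]
  have b1 : ∫ ω, A.indicator 1 ω * R g ω ∂P ≤ ∫ ω, A.indicator (fun _ => (2 / 25 : ℝ)) ω ∂P :=
    integral_mono_ae (lA.integrable_mul lR) ((integrable_const _).indicator hA)
      (ae.mono fun ω h => by
        by_cases h1 : ω ∈ A
        · simpa [h1] using R_big h (h1 [] (by simp))
        · simp [h1])
  have hB : MeasurableSet {ω : List ℕ → ℕ | ω [] = 2} := measurable_pi_apply [] (.singleton 2)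
  have b2 : ∫ ω, {ω : List ℕ → ℕ | ω [] = 2}.indicator (fun _ => (1 / 6 : ℝ)) ω ∂P ≤ ∫ ω, R g ω ∂P :=
    integral_mono_ae ((integrable_const _).indicator hB) (lR.integrable one_le_two)
      (ae.mono fun ω h => by
        by_cases h1 : ω [] = 2
        · simpa [h1] using R_small h h1
        · simp [h1, R]; positivity)
  rw [integral_indicator_const _ hA, pA] at b1
  rw [integral_indicator_const _ hB, show P.real {ω | ω [] = 2} = _ from (mp []).measureReal_preimage
    (s := {2}) (MeasurableSet.singleton _).nullMeasurableSet] at b2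
  simp only [p, measureReal_def, smul_eq_mul] at b1 b2
  norm_num at b2
  simp only [Pi.mul_apply]
  linarith

end Pool.Agent.Results.MP_8be476_pr.NegCov
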